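import Pool.Agent.H248.ID.J01

set_option autoImplicit false
open MeasureTheory Metric Set Filter Topology
open scoped ENNReal NNReal ContDiff

namespace H248.NL

/-- the Euclidean space -/
abbrev V (d : ℕ) := EuclideanSpace ℝ (Fin d)

/-- matrix of a continuous linear map in the standard basis -/
noncomputable def mat {d : ℕ} (L : V d →L[ℝ] V d) : Matrix (Fin d) (Fin d) ℝ :=
  Matrix.of fun i j => L (EuclideanSpace.single j 1) i

/-- the coordinate identification -/
noncomputable def cv (d : ℕ) : H248.ID.E d ≃L[ℝ] V d := (EuclideanSpace.equiv (Fin d) ℝ).symm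

lemma cv_single {d : ℕ} (j : Fin d) : cv d (Pi.single j 1) = EuclideanSpace.single j 1 := rfl

lemma mat_cont {d : ℕ} {g : V d → V d →L[ℝ] V d} (hg : Continuous g) :
    Continuous fun x => mat (g x) := by
  refine continuous_matrix fun i j => ?_
  have h1 : Continuous fun x => g x (EuclideanSpace.single j (1 : ℝ)) := hg.clm_apply continuous_const
  exact (EuclideanSpace.proj (𝕜 := ℝ) i).continuous.comp h1

lemma jac_eq {d : ℕ} {f : V d → V d} (hf : Differentiable ℝ f) (x : H248.ID.E d) :
    H248.ID.jac (fun y => (cv d).symm (f (cv d y))) x = mat (fderiv ℝ f (cv d x)) := by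
  ext i j
  have h1 : HasFDerivAt (fun y => (cv d).symm (f (cv d y)) i)
      (((ContinuousLinearMap.proj (R := ℝ) (φ := fun _ : Fin d => ℝ) i).comp
        ((cv d).symm : V d →L[ℝ] H248.ID.E d)).comp
        ((fderiv ℝ f (cv d x)).comp (cv d : H248.ID.E d →L[ℝ] V d))) x := by
    have h2 : HasFDerivAt (fun y => f (cv d y))
        ((fderiv ℝ f (cv d x)).comp (cv d : H248.ID.E d →L[ℝ] V d)) x :=
      (hf (cv d x)).hasFDerivAt.comp x (cv d).hasFDerivAt
    exact (((ContinuousLinearMap.proj (R := ℝ) (φ := fun _ : Fin d => ℝ) i).comp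
        ((cv d).symm : V d →L[ℝ] H248.ID.E d)).hasFDerivAt).comp x h2
  simp only [H248.ID.jac, H248.ID.pd, Matrix.of_apply, mat]
  rw [h1.fderiv]
  rfl

lemma det_row {n : ℕ} (A : Matrix (Fin n) (Fin n) ℝ) (i : Fin n) (b : Fin n → ℝ) :
    (A.updateRow i b).det = ∑ j, A.adjugate j i * b j := by
  rw [← Matrix.cramer_transpose_apply, Matrix.cramer_eq_adjugate_mulVec,
    ← Matrix.adjugate_transpose]
  rfl

lemma trace_eq {d : ℕ} (M N : Matrix (Fin d) (Fin d) ℝ) :
    (M.adjugate * N).trace = ∑ i, (M.updateRow i (fun j => N i j)).det := by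
  simp only [det_row, Matrix.trace, Matrix.diag_apply, Matrix.mul_apply]
  rw [Finset.sum_comm]

/-- (NL) global null Lagrangian identity -/
theorem nl_global {d : ℕ} {f φ : V d → V d} (hf : ContDiff ℝ ∞ f) (hφ : ContDiff ℝ ∞ φ)
    (hc : HasCompactSupport φ) :
    Integrable (fun x => ((mat (fderiv ℝ f x)).adjugate * mat (fderiv ℝ φ x)).trace) ∧
    ∫ x, ((mat (fderiv ℝ f x)).adjugate * mat (fderiv ℝ φ x)).trace = 0 := by
  have hcf : Continuous fun x => mat (fderiv ℝ f x) := mat_cont (hf.continuous_fderiv (by simp))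
  have hcφ : Continuous fun x => mat (fderiv ℝ φ x) := mat_cont (hφ.continuous_fderiv (by simp))
  have hcont : Continuous
      (fun x => ((mat (fderiv ℝ f x)).adjugate * mat (fderiv ℝ φ x)).trace) :=
    (hcf.matrix_adjugate.matrix_mul hcφ).matrix_trace
  have hsupp : HasCompactSupport
      (fun x => ((mat (fderiv ℝ f x)).adjugate * mat (fderiv ℝ φ x)).trace) := by
    have h1 : HasCompactSupport (fderiv ℝ φ) := hc.fderiv ℝ
    refine HasCompactSupport.mono h1 ?_
    intro z hz
    rw [Function.mem_support] at hz ⊢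
    intro h0
    apply hz
    have hm : mat (fderiv ℝ φ z) = 0 := by
      rw [h0]
      ext i j
      simp [mat]
    rw [hm]
    simp
  refine ⟨hcont.integrable_of_hasCompactSupport hsupp, ?_⟩
  -- transport to the product space
  have hmp : MeasurePreserving (cv d) :=
    PiLp.volume_preserving_toLp (Fin d)
  have hme : MeasurableEmbedding (cv d) := (cv d).toHomeomorph.measurableEmbedding
  rw [← hmp.integral_comp hme]
  set f' : H248.ID.E d → H248.ID.E d := fun y => (cv d).symm (f (cv d y)) with hf'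
  set φ' : H248.ID.E d → H248.ID.E d := fun y => (cv d).symm (φ (cv d y)) with hφ'
  have hsf : ContDiff ℝ ∞ f' :=
    (cv d).symm.contDiff.comp (hf.comp (cv d).contDiff)
  have hsφ : ContDiff ℝ ∞ φ' :=
    (cv d).symm.contDiff.comp (hφ.comp (cv d).contDiff)
  have hcs : HasCompactSupport φ' := by
    have h1 : HasCompactSupport (fun y => φ (cv d y)) := hc.comp_homeomorph (cv d).toHomeomorph
    exact h1.comp_left (g := (cv d).symm) (map_zero _)
  have heq : ∀ x, ((mat (fderiv ℝ f (cv d x))).adjugate * mat (fderiv ℝ φ (cv d x))).trace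
      = ∑ i, ((H248.ID.jac f' x).updateRow i (fun j => H248.ID.pd (fun y => φ' y i) j x)).det := by
    intro x
    rw [trace_eq, ← jac_eq (hf.differentiable (by simp)), ← jac_eq (hφ.differentiable (by simp))]
    rfl
  simp only [heq]
  have hi : ∀ i : Fin d, Integrable (fun x =>
      ((H248.ID.jac f' x).updateRow i (fun j => H248.ID.pd (fun y => φ' y i) j x)).det) := by
    intro i
    have hφi : ContDiff ℝ ∞ (fun y => φ' y i) := (contDiff_pi.mp hsφ) i
    have hcj : Continuous fun x => H248.ID.jac f' x :=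
      continuous_matrix fun a b =>
        ((H248.ID.J01.pd_contDiff ((contDiff_pi.mp hsf) a) b).continuous)
    have hcr : Continuous fun x => (H248.ID.jac f' x).updateRow i
        (fun j => H248.ID.pd (fun y => φ' y i) j x) := by
      refine hcj.matrix_updateRow i ?_
      exact continuous_pi fun j => (H248.ID.J01.pd_contDiff hφi j).continuous
    refine hcr.matrix_det.integrable_of_hasCompactSupport ?_
    have hsc : HasCompactSupport (fun y => φ' y i) :=
      hcs.comp_left (g := fun v : H248.ID.E d => v i) rfl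
    have h2 : HasCompactSupport (fderiv ℝ (fun y => φ' y i)) := hsc.fderiv ℝ
    refine HasCompactSupport.mono h2 ?_
    intro z hz
    rw [Function.mem_support] at hz ⊢
    intro h0
    apply hz
    have hr : (fun j => H248.ID.pd (fun y => φ' y i) j z) = 0 := by
      funext j
      simp [H248.ID.pd, h0]
    rw [hr]
    exact Matrix.det_eq_zero_of_row_eq_zero i (fun j => by simp)
  rw [integral_finsetSum _ (fun i _ => hi i)]
  refine Finset.sum_eq_zero fun i _ => ?_
  exact H248.ID.J01.null_lagrangian hsf ((contDiff_pi.mp hsφ) i)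
    (hcs.comp_left (g := fun v : H248.ID.E d => v i) rfl) i

/-- (NL) local version -/
theorem nl_local {d : ℕ} {O : Set (V d)} (hO : IsOpen O) {f φ : V d → V d}
    (hf : ContDiffOn ℝ ∞ f O) (hφ : ContDiff ℝ ∞ φ)
    (hc : HasCompactSupport φ) (hs : tsupport φ ⊆ O) :
    Integrable (fun x => ((mat (fderiv ℝ f x)).adjugate * mat (fderiv ℝ φ x)).trace) ∧
    ∫ x, ((mat (fderiv ℝ f x)).adjugate * mat (fderiv ℝ φ x)).trace = 0 := by
  obtain ⟨χ, hχs, hχc, hχ1, -⟩ : ∃ χ : V d → ℝ, ContDiff ℝ ∞ χ ∧ tsupport χ ⊆ O ∧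
      (∀ᶠ x in 𝓝ˢ (tsupport φ), χ x = 1) ∧ True := by
    obtain ⟨L, hL, hKL, hLO⟩ := exists_compact_between hc hO hs
    obtain ⟨χ, h1, h2, -⟩ := exists_contMDiffMap_one_nhds_of_subset_interior (n := (⊤ : ℕ∞))
      (modelWithCornersSelf ℝ (V d)) (isClosed_tsupport φ) hKL
    refine ⟨χ, χ.contMDiff.contDiff, ?_, h1, trivial⟩
    refine (closure_minimal ?_ hL.isClosed).trans hLO
    intro x hx
    by_contra hxL
    exact hx (h2 x hxL)
  set g : V d → V d := fun x => χ x • f x with hg
  have hgs : ContDiff ℝ ∞ g := by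
    rw [contDiff_iff_contDiffAt]
    intro x
    by_cases hx : x ∈ O
    · exact (hχs.contDiffAt).smul ((hf x hx).contDiffAt (hO.mem_nhds hx))
    · have hx2 : x ∉ tsupport χ := fun h => hx (hχc h)
      have : g =ᶠ[𝓝 x] fun _ => 0 := by
        have h3 : (tsupport χ)ᶜ ∈ 𝓝 x := (isClosed_tsupport χ).isOpen_compl.mem_nhds hx2
        filter_upwards [h3] with y hy
        have : χ y = 0 := image_eq_zero_of_notMem_tsupport hy
        simp [hg, this]
      exact contDiffAt_const.congr_of_eventuallyEq this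
  have key : ∀ x, ((mat (fderiv ℝ f x)).adjugate * mat (fderiv ℝ φ x)).trace
      = ((mat (fderiv ℝ g x)).adjugate * mat (fderiv ℝ φ x)).trace := by
    intro x
    by_cases hx : x ∈ tsupport φ
    · have h1 : ∀ᶠ y in 𝓝 x, χ y = 1 := (eventually_nhdsSet_iff_forall.mp hχ1) x hx
      have h2 : g =ᶠ[𝓝 x] f := by
        filter_upwards [h1] with y hy
        simp [hg, hy]
      rw [h2.fderiv_eq]
    · have h3 : fderiv ℝ φ x = 0 := by
        have h4 : φ =ᶠ[𝓝 x] fun _ => 0 := by
          have h3 : (tsupport φ)ᶜ ∈ 𝓝 x := (isClosed_tsupport φ).isOpen_compl.mem_nhds hx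
          filter_upwards [h3] with y hy
          exact image_eq_zero_of_notMem_tsupport hy
        rw [h4.fderiv_eq]
        simp
      have hm : mat (fderiv ℝ φ x) = 0 := by
        rw [h3]
        ext i j
        simp [mat]
      rw [hm]
      simp
  simp only [key]
  exact nl_global hgs hφ hc

end H248.NL
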